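import Pool.Agent.H79.DO.Stmts

/-!
# Project DO, module CHK: the verifier works in polynomial time
-/

set_option autoImplicit false

namespace Pool.Agent.H24.DO

open Pool.Agent.H79.DO TMLib
open Pool.Agent.H74.PPAD (num addB mulB ltB strip unblk unblks decP decL)

theorem chk (h1 : PNSUM) (h2 : PNALG) (h3 : PDALG) : CHK := by
  have sum' : ∀ {α : Type} [Enc α] {f : α → ℕ → ℕ} {n : α → ℕ},
      PN (fun p : α × ℕ => f p.1 p.2) → PTime n →
      PN (fun x => ∑ i ∈ Finset.range (n x), f x i) := fun hf hn => h1 _ _ _ hf hn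
  have mul' : ∀ {α : Type} [Enc α] {f g : α → ℕ}, PN f → PN g → PN (fun x => f x * g x) :=
    fun {α} _ _ _ hf hg => (h2 α α).2.1 _ _ hf hg
  have const' : ∀ {α : Type} [Enc α] (c : ℕ), PN (fun _ : α => c) :=
    fun {α} _ c => (h2 α α).2.2.2.1 c
  have num' : ∀ {α : Type} [Enc α] {g : α → List Bool}, PTime g → PN (fun x => num (g x)) :=
    fun {α} _ _ hg => (h2 α α).2.2.2.2.1 _ hg
  have nat' : ∀ {α : Type} [Enc α] {g : α → ℕ}, PTime g → PN g :=
    fun {α} _ _ hg => (h2 α α).2.2.2.2.2 _ hg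
  have and' : ∀ {α : Type} [Enc α] {P Q : α → Prop}, PD P → PD Q → PD (fun x => P x ∧ Q x) :=
    fun {α} _ _ _ hf hg => (h3 α α).1 _ _ hf hg
  have imp' : ∀ {α : Type} [Enc α] {P Q : α → Prop}, PD P → PD Q → PD (fun x => P x → Q x) :=
    fun {α} _ _ _ hf hg => (h3 α α).2.2.1 _ _ hf hg
  have all' : ∀ {α : Type} [Enc α] {P : α → ℕ → Prop} {n : α → ℕ},
      PD (fun p : α × ℕ => P p.1 p.2) → PTime n → PD (fun x => ∀ i, i < n x → P x i) :=
    fun {α} _ _ _ hf hg => (h3 α α).2.2.2.2.2.1 _ _ hf hg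
  have tt' : ∀ {α : Type} [Enc α] {g : α → Bool}, PTime g → PD (fun x => g x = true) :=
    fun {α} _ _ hg => (h3 α α).2.2.2.2.2.2.1 _ hg
  have ff' : ∀ {α : Type} [Enc α] {g : α → Bool}, PTime g → PD (fun x => g x = false) :=
    fun {α} _ _ hg => (h3 α α).2.2.2.2.2.2.2.1 _ hg
  have eq' : ∀ {α : Type} [Enc α] {f g : α → ℕ}, PN f → PN g → PD (fun x => f x = g x) :=
    fun {α} _ _ _ hf hg => (h3 α α).2.2.2.2.2.2.2.2.1 _ _ hf hg
  have le' : ∀ {α : Type} [Enc α] {f g : α → ℕ}, PN f → PN g → PD (fun x => f x ≤ g x) :=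
    fun {α} _ _ _ hf hg => (h3 α α).2.2.2.2.2.2.2.2.2.1 _ _ hf hg
  have lt' : ∀ {α : Type} [Enc α] {f g : α → ℕ}, PN f → PN g → PD (fun x => f x < g x) :=
    fun {α} _ _ _ hf hg => (h3 α α).2.2.2.2.2.2.2.2.2.2.1 _ _ hf hg
  constructor
  · simp only [Good, readI, readC, NN, nB, mB, kB, enB, frB]
    repeat' first
      | with_reducible refine and' ?_ ?_
      | with_reducible refine all' ?_ ?_
      | with_reducible refine imp' ?_ ?_
      | with_reducible refine tt' ?_
      | with_reducible refine ff' ?_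
      | with_reducible refine eq' ?_ ?_
      | with_reducible refine le' ?_ ?_
      | with_reducible refine lt' ?_ ?_
      | with_reducible refine sum' ?_ ?_
      | with_reducible refine mul' ?_ ?_
      | with_reducible refine num' ?_
      | exact const' _
      | fun_prop
      | (refine nat' ?_; fun_prop)
  · show PD (fun b : BData => Rect b)
    simp only [Rect, nB, mB, kB]
    repeat' first
      | with_reducible refine and' ?_ ?_
      | with_reducible refine all' ?_ ?_
      | with_reducible refine imp' ?_ ?_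
      | with_reducible refine eq' ?_ ?_
      | fun_prop
      | (refine nat' ?_; fun_prop)

end Pool.Agent.H24.DO
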